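import Pool.Agent.helper55.FLD.Spec

/-! # MP_2e0e07: row TA (powers) -/

namespace Pool.Agent.FLD

open Matrix Topology Filter

section

variable {p : ℕ} [Fact p.Prime] {B : Type} [Ring B] [Algebra ℚ_[p] B] {R : Subring B}

theorem TA_one {j k : ℕ} {x y : B} (hx : Dv p R j (x - 1)) (hy : Dv p R j (y - 1))
    (hxy : Dv p R k (x - y)) (n : ℕ) : Dv p R (k + j) (x ^ n - y ^ n - n • (x - y)) := by
  induction n with
  | zero => simpa using Dv.zero (k + j)
  | succ n ih =>
    have e : x ^ (n + 1) - y ^ (n + 1) - (n + 1) • (x - y) =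
        (x ^ n - 1) * (x - y) + (x ^ n - y ^ n - n • (x - y)) * y + n • ((x - y) * (y - 1)) := by
      rw [pow_succ, pow_succ, add_smul, one_smul]
      have e2 : (n • (x - y)) * y = n • ((x - y) * y) := smul_mul_assoc _ _ _
      have e3 : n • ((x - y) * (y - 1)) = n • ((x - y) * y) - n • (x - y) := by
        rw [mul_sub, mul_one, smul_sub]
      rw [sub_mul (x ^ n - y ^ n), e2, e3]
      noncomm_ring
    rw [e]
    have h1 : Dv p R (k + j) ((x ^ n - 1) * (x - y)) := by
      rw [add_comm]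
      exact (hx.pow_sub_one n).mul hxy
    exact (h1.add (ih.mul_right (mem_of_dv_sub_one hy))).add ((hxy.mul hy).nsmul n)

theorem TA_psmul (z : B) : (p : ℕ) • z = ((p : ℚ_[p]) ^ 1) • z := by
  rw [pow_one, Nat.cast_smul_eq_nsmul]

theorem TA_two {k : ℕ} {x y : B} (hx : Dv p R 2 (x - 1)) (hy : Dv p R 2 (y - 1)) :
    Dv p R k (x - y) ↔ Dv p R (k + 1) (x ^ p - y ^ p) := by
  constructor
  · intro h
    have h1 := (TA_one hx hy h p).mono (show k + 1 ≤ k + 2 by omega)
    have h2 : Dv p R (k + 1) (p • (x - y)) := by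
      rw [TA_psmul]
      exact h.smul 1
    have h3 := h1.add h2
    rwa [sub_add_cancel] at h3
  · induction k with
    | zero =>
      intro _
      rw [dv_zero_iff]
      exact R.sub_mem (mem_of_dv_sub_one hx) (mem_of_dv_sub_one hy)
    | succ k ih =>
      intro h
      have h1 := ih (h.mono (by omega))
      have h2 := TA_one hx hy h1 p
      have h3 : Dv p R (k + 1 + 1) (p • (x - y)) := by
        have := (show Dv p R (k + 1 + 1) (x ^ p - y ^ p) from h).sub h2
        rwa [sub_sub_cancel] at this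
      rw [TA_psmul] at h3
      exact h3.of_smul 1

theorem TA_three (i : ℕ) {k : ℕ} {x y : B} (hx : Dv p R 2 (x - 1)) (hy : Dv p R 2 (y - 1)) :
    Dv p R k (x - y) ↔ Dv p R (k + i) (x ^ p ^ i - y ^ p ^ i) := by
  induction i with
  | zero => simp
  | succ i ih =>
    rw [ih, pow_succ, pow_mul, pow_mul, ← add_assoc]
    exact TA_two (hx.pow_sub_one _) (hy.pow_sub_one _)

end

theorem TA : TA_stmt := by
  intro p _ B _ _ R
  refine ⟨fun j k x y hx hy hxy n => TA_one hx hy hxy n,
    fun i k x y hx hy => TA_three i hx hy, fun i x hx => ?_⟩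
  have h0 : Dv p R 2 ((1 : B) - 1) := by simpa using Dv.zero 2
  have h1 : Dv p R (i + 2) (x ^ p ^ i - 1) := by
    have := (TA_three (k := 2) i hx h0).mp hx
    rw [one_pow, add_comm] at this
    exact this
  have h2 : Dv p R (i + 2) ((1 : B) - 1) := by simpa using Dv.zero (i + 2)
  have h3 := TA_one h1 h2 h1 p
  rw [one_pow, ← pow_mul, ← pow_succ, TA_psmul, pow_one] at h3
  have e : i + 2 + (i + 2) = 2 * i + 4 := by ring
  rw [e] at h3
  exact h3

end Pool.Agent.FLD
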